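import Pool.Agent.H14.Dv2

set_option maxHeartbeats 400000

namespace Pool.Agent.Results.MP_e23efd_co.Extremal

open Finset Pool.Agent.H14.Dv

/-- `S` is `m`-zero free: `e_m(S') ≠ 0` for every sub-multiset `S'` of length at least `m`. -/
def ZeroFree {n : ℕ} (m : ℕ) (S : Multiset (ZMod n)) : Prop :=
  ∀ S' ≤ S, m ≤ Multiset.card S' → S'.esymm m ≠ 0

theorem result (p r s : ℕ) (hp : p.Prime) (hr : 1 ≤ r) (S : Multiset (ZMod (p ^ r)))
    (hS : ZeroFree (p ^ s) S) (hl : Multiset.card S = p ^ s * p ^ r - 1) :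
    ∃ a : ZMod (p ^ r), IsUnit a ∧ S = Multiset.replicate (p ^ s * p ^ r - 1) a := by
  haveI : Fact p.Prime := ⟨hp⟩
  haveI : NeZero (p ^ r) := ⟨pow_ne_zero _ hp.ne_zero⟩
  induction S using Quotient.inductionOn with
  | h l =>
  have hq : 2 ≤ p ^ r := Nat.one_lt_pow (by omega) hp.one_lt
  have hm : 1 ≤ p ^ s := pow_pos hp.pos s
  have h2 : 1 * 2 ≤ p ^ s * p ^ r := Nat.mul_le_mul hm hq
  have hl' : l.length = p ^ s * p ^ r - 1 := by simpa using hl
  have hc : Fintype.card (Fin l.length) + 1 = p ^ s * p ^ r := by rw [Fintype.card_fin]; omega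
  have hmap : (univ : Finset (Fin l.length)).val.map l.get = (l : Multiset _) := by
    simp [Fin.univ_val_map]
  have hz : ∀ T : Finset (Fin l.length), p ^ s ≤ T.card →
      ∑ B ∈ T.powersetCard (p ^ s), ∏ i ∈ B, l.get i ≠ 0 := by
    intro T hT
    rw [← esymm_map_val]
    refine hS _ ?_ (by simpa using hT)
    exact (Multiset.map_le_map (val_le_iff.2 (subset_univ T))).trans hmap.le
  have hZ : ZF (p ^ s) (p ^ r) (fun i => (l.get i).val) := by
    intro T hT hd
    apply hz T hT
    rw [← ZMod.natCast_eq_zero_iff] at hd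
    simpa [E] using hd
  have hall : ∀ x y, l.get x = l.get y := by
    intro x y
    rcases Nat.eq_zero_or_pos s with rfl | hs
    · refine one_case (by rw [ZMod.card, hc]; simp) l.get (fun T hT => ?_) x y
      have := hz T (by simpa using hT)
      simpa [powersetCard_one] using this
    · have := (ZMod.natCast_eq_natCast_iff _ _ _).2 (hZ.all hs hr hc x y)
      simpa using this
  let x0 : Fin l.length := ⟨0, by omega⟩
  refine ⟨l.get x0, ?_, ?_⟩
  · have := hZ.unit hr hc x0
    rw [Ne, ZMod.natCast_eq_zero_iff] at this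
    rw [← ZMod.natCast_zmod_val (l.get x0), ZMod.isUnit_iff_coprime]
    exact Nat.Coprime.pow_right _ ((Nat.Prime.coprime_iff_not_dvd hp).2 this).symm
  · rw [Multiset.eq_replicate]
    refine ⟨hl, fun b hb => ?_⟩
    obtain ⟨i, rfl⟩ := List.get_of_mem (Multiset.mem_coe.1 hb)
    exact hall _ _

end Pool.Agent.Results.MP_e23efd_co.Extremal
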